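import Mathlib
import Pool.Agent.V11150.Hemicube

set_option autoImplicit false

namespace Pool.Agent.Results.MP_c7efa6_co.HemicubeCounterexample

open Pool.Agent.V11150.CliqueGraphs

/-- Q1 of MP_c7efa6_co is false: there is a finite ordered set with the fixed point property none of
whose iterated clique graphs has exactly one vertex (the face poset of the hemicube, with 13
elements). -/
theorem result : ∃ (P : Type) (_ : PartialOrder P) (_ : Finite P) (_ : Nonempty P),
    (∀ f : P →o P, ∃ x, f x = x) ∧
      ∀ n : ℕ, Nontrivial (iter n ⟨P, comparabilityGraph P⟩).1 :=
  ⟨Hemi, inferInstance, inferInstance, inferInstance, fixed_point,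
    fun n => nontrivial_iter hemiCover n⟩

end Pool.Agent.Results.MP_c7efa6_co.HemicubeCounterexample
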